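import Pool.Agent.Results.MP_bd9ace_nt.RadicalsOfSolutions
import Pool.Agent.U513.AP.ExpSave

/-!
# Integers `n` sharing their prime divisors with `σ(n)`: their radicals are not near Diophantine approximations

The starting file bounds the number of the `R ≤ X` which are the product of the prime factors of an odd `n > 1` with the same prime
factors as `σ(n)`. Here: for all points `α` outside of a set of Hausdorff measure zero in the dimension `(d + 1) / (1 + τ)`, NO such `R`
is near an integral affine form at an approximation of `α` with a large denominator.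
-/

set_option autoImplicit false

open Finset Filter MeasureTheory

namespace Pool.Agent.Results.MP_bd9ace_nt.Approximations

open Pool.Agent.U513.AP

/-- For all `d`, `τ ≥ 0` and `γ` there is a set `E` of Hausdorff measure zero in the dimension `(d + 1) / (1 + τ)` (of Lebesgue measure
zero if `d τ ≥ 1`) such that for all `α ∉ E`, all `W` and all the integral affine forms `c + a k + ∑ b_i u_i` with `(a, b) ≠ 0`, for all
large `k` and all integral `u` with `|k α_i - γ_i - u_i| ≤ k ^ (-τ)`: if `n > 1` is odd and the product `R` of its prime factors satisfies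
`|R - (c + a k + ∑ b_i u_i)| ≤ (log k) ^ W`, then `n` and `σ(n)` do not have the same prime factors. -/
theorem result (d : ℕ) (τ : ℝ) (hτ : 0 ≤ τ) (γ : Fin d → ℝ) :
    ∃ E : Set (Fin d → ℝ), μH[((d : ℝ) + 1) / (1 + τ)] E = 0 ∧ (1 ≤ d * τ → volume E = 0) ∧
      ∀ α, α ∉ E → ∀ (W : ℕ) (c a : ℤ) (b : Fin d → ℤ), ¬ (a = 0 ∧ b = 0) → ∀ᶠ k : ℕ in atTop, ∀ u : Fin d → ℤ,
        (∀ i, |(k : ℝ) * α i - γ i - u i| ≤ (k : ℝ) ^ (-τ)) → ∀ n : ℕ, Odd n → 1 < n →
          |((∏ p ∈ n.primeFactors, p : ℕ) : ℝ) - (c + a * k + ∑ i, b i * u i : ℤ)| ≤ Real.log k ^ W →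
            n.primeFactors ≠ (∑ e ∈ n.divisors, e).primeFactors := by
  classical
  obtain ⟨M, hM⟩ := RadicalsOfSolutions.result.2
  obtain ⟨B, hB⟩ : ∃ B : Set ℕ, B = {R : ℕ | ∃ n : ℕ, Odd n ∧ 1 < n ∧
      n.primeFactors = (∑ d ∈ n.divisors, d).primeFactors ∧ ∏ p ∈ n.primeFactors, p = R} := ⟨_, rfl⟩
  have hF : ∀ A : ℕ, FewLog B A := by
    refine fewLog_exp (c := 1 / 100) (s := (1 : ℝ) / 3) (M := M) (by norm_num) (by norm_num) 1 fun X hX => ?_
    have hX1 : (1 : ℝ) ≤ X := by exact_mod_cast hX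
    have h1 := hM X hX1
    have e1 : -(1 / 100 * Real.log X ^ ((1 : ℝ) / 3)) = -(Real.log X ^ ((1 : ℝ) / 3) / 100) := by ring
    rw [e1]
    refine le_trans (Nat.cast_le.2 (Set.ncard_le_ncard ?_ ?_)) h1
    · rintro R ⟨hR, h2, h3⟩
      rw [hB] at hR
      exact ⟨by exact_mod_cast h3, hR⟩
    · refine (Set.finite_Iic X).subset fun R hR => ?_
      have := hR.1
      exact_mod_cast this
  obtain ⟨E, e1, e2, e3⟩ := null_forms_all hF hτ γ
  refine ⟨E, e1, e2, fun α hα W c a b hab => ?_⟩
  filter_upwards [e3 α hα W c a b hab] with k hk u hu n hn hn1 hle heq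
  refine hk u hu _ (by rw [hB]; exact ⟨n, hn, hn1, heq, rfl⟩) ?_ hle
  exact Nat.one_le_iff_ne_zero.2 (Finset.prod_ne_zero_iff.2 fun p hp => (Nat.prime_of_mem_primeFactors hp).ne_zero)

end Pool.Agent.Results.MP_bd9ace_nt.Approximations
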